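import Pool.Agent.H53.MW.Targets

/-!
MP_c62aed_lc, permanent lines and work memory: restriction of decision trees (row DTR).
-/

set_option autoImplicit false

namespace Pool.Agent.H57.MWK

open Finset Pool.Agent.H53.MW
open Pool.Agent.H97.SHL (DT)

theorem pf_DTR : T_DTR := by
  intro X _ 𝓛 Lf hLf Q t s h
  constructor
  · induction h with
    | leaf Q t hQ =>
      intro Q' hQ'
      exact DT.leaf Q' t (hLf Q Q' hQ hQ')
    | node Q A t s₁ s₂ hA _ _ ih₁ ih₂ =>
      intro Q' hQ'
      exact DT.node Q' A t s₁ s₂ hA (ih₁ _ (inter_subset_inter_right hQ'))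
        (ih₂ _ (sdiff_subset_sdiff hQ' (Subset.refl A)))
  · intro P Lf' hP
    induction h with
    | leaf Q t hQ => exact DT.leaf _ t (hP Q hQ)
    | node Q A t s₁ s₂ hA _ _ ih₁ ih₂ =>
      refine DT.node _ A t s₁ s₂ hA ?_ ?_
      · have e : Q ∩ P ∩ A = Q ∩ A ∩ P := by
          ext x; simp only [mem_inter]; tauto
        rw [e]; exact ih₁
      · have e : (Q ∩ P) \ A = (Q \ A) ∩ P := by
          ext x; simp only [mem_inter, mem_sdiff]; tauto
        rw [e]; exact ih₂

end Pool.Agent.H57.MWK
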